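import Pool.Agent.Lib.MP_5b78b3_gt.Final

/-!
In every dimension `d ≥ 3` there are convex bodies, as close to the unit ball as we like, that are
homothetic to one of their convex floating bodies and are not ellipsoids.
-/

namespace Pool.Agent.Results.MP_5b78b3_gt.AllDimensions

open Pool.Agent.Lib.MP_5b78b3_gt

theorem result (d : ℕ) (hd : 3 ≤ d) (ε : ℝ) (hε : 0 < ε) :
    ∃ (K : Set (EuclideanSpace ℝ (Fin d))) (δ c : ℝ),
      IsCompact K ∧ Convex ℝ K ∧ (interior K).Nonempty ∧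
      Metric.closedBall 0 (1 - ε) ⊆ K ∧ K ⊆ Metric.closedBall 0 (1 + ε) ∧ 0 < δ ∧ 0 < c ∧
      (⋂ (u : EuclideanSpace ℝ (Fin d)) (t : ℝ) (_ : u ≠ 0)
          (_ : MeasureTheory.volume (K ∩ {y | t ≤ inner ℝ u y}) ≤ ENNReal.ofReal δ),
          {y : EuclideanSpace ℝ (Fin d) | inner ℝ u y ≤ t}) = (fun y => c • y) '' K ∧
      ¬ ∃ A : EuclideanSpace ℝ (Fin d) ≃ᵃ[ℝ] EuclideanSpace ℝ (Fin d),
        K = A '' Metric.closedBall 0 1 := by
  obtain ⟨K, δ, c, h1, h2, h3, h4, h5, h6, h7, h8, h9⟩ := main d hd hε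
  refine ⟨K, δ, c, h1, h2, h3, h4, h5, h6, h7, ?_, h9⟩
  simp only [add_zero] at h8
  rw [← h8]
  refine Set.iInter_congr fun u => Set.iInter_congr fun t => Set.iInter_congr fun hu => ?_
  have hnull : MeasureTheory.volume {y : EuclideanSpace ℝ (Fin d) | inner ℝ u y = t} = 0 := by
    have hu' : 0 < ‖u‖ := norm_pos_iff.2 hu
    have := capdiv_plane (e := ‖u‖⁻¹ • u) (by simp [norm_smul, hu'.ne']) (‖u‖⁻¹ * t)
    rw [← this]
    congr 1
    ext y
    simp only [Set.mem_ofPred_eq, inner_smul_left]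
    simp [hu'.ne']
  have : MeasureTheory.volume (K ∩ {y | t ≤ inner ℝ u y})
      = MeasureTheory.volume (K \ {y | inner ℝ u y ≤ t}) := by
    rw [← MeasureTheory.measure_sdiff_null (s := K ∩ {y | t ≤ inner ℝ u y}) hnull]
    congr 1
    ext y
    simp only [Set.mem_sdiff, Set.mem_inter_iff, Set.mem_ofPred_eq, not_le, and_assoc]
    exact and_congr_right fun _ => ⟨fun h => lt_of_le_of_ne h.1 (Ne.symm h.2), fun h => ⟨h.le, h.ne'⟩⟩
  rw [this]

end Pool.Agent.Results.MP_5b78b3_gt.AllDimensions
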