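import Pool.Agent.Lib.MP_5b78b3_gt.Rig.St
import Pool.Agent.Lib.MP_5b78b3_gt.Rig.Main

/-!
In every dimension `d ≥ 2`, away from an explicit discrete set of ratios, a convex body that is
affinely close to the ball and homothetic to one of its convex floating bodies is an ellipsoid.
-/

namespace Pool.Agent.Results.MP_5b78b3_gt.GenericRigid

open Pool.Agent.Lib.MP_5b78b3_gt

theorem result (d : ℕ) (hd : 2 ≤ d) (Z : Set ℝ)
    (hZ : Z = {l : ℝ | 0 < l ∧ l < 1 ∧ ∃ k : ℕ, 2 ≤ k ∧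
      ∑ j ∈ Finset.range (k / 2 + 1), (-1) ^ j * (k.choose (2 * j) : ℝ) * l ^ (k - 2 * j) *
        (1 - l ^ 2) ^ j * ∏ i ∈ Finset.range j, (2 * i + 1 : ℝ) / (2 * i + d + 1) = l}) :
    Z ⊆ Set.Ioo 0 (1 / 4) ∧ (∀ a : ℝ, 0 < a → (Z ∩ Set.Ici a).Finite) ∧
    ∀ a b : ℝ, 0 < a → b < 1 → Disjoint (Set.Icc a b) Z →
    ∃ ε : ℝ, 0 < ε ∧ ∀ (K L : Set (EuclideanSpace ℝ (Fin d))) (δ c : ℝ)
      (x : EuclideanSpace ℝ (Fin d)),
      IsCompact K → Convex ℝ K →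
      Rig.AffImage K L → Metric.closedBall 0 (1 - ε) ⊆ L → L ⊆ Metric.closedBall 0 (1 + ε) →
      0 < δ → a ≤ c → c ≤ b → Rig.floating K δ = (fun y => c • y + x) '' K →
      Rig.AffImage (Metric.closedBall 0 1) K := by
  have hg : ∀ j : ℕ, ∏ i ∈ Finset.range j, (2 * i + 1 : ℝ) / (2 * i + d + 1) = gam d j := fun j => by
    induction j with
    | zero => simp [gam]
    | succ j ih => rw [Finset.prod_range_succ, ih, gam, mul_div_assoc]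
  simp only [hg] at hZ
  obtain ⟨m, rfl⟩ := Nat.exists_eq_add_of_le' hd
  obtain rfl : Z = Rig.Exc (m + 2) := hZ
  refine ⟨Rig.Exc_sub m, fun a ha => Rig.Exc_finite m ha, fun a b ha hb hab => ?_⟩
  rcases lt_or_ge b a with h0 | h0
  · exact ⟨1, one_pos, fun _ _ _ _ _ _ _ _ _ _ _ h6 h7 => absurd (h6.trans h7) (not_le.2 h0)⟩
  obtain ⟨a1, b1, e1, e2, e3, e4, e5⟩ := Rig.Exc_enlarge m ha hb hab
  obtain ⟨ε, hε, h⟩ := Rig.rigid m False e1 e2 e3 e4 (fun l hl k hk _ e =>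
    Set.disjoint_left.1 (e5 h0) hl ⟨e1.trans_le hl.1, hl.2.trans_lt e4, k, hk, e⟩)
  refine ⟨ε, hε, ?_⟩
  rintro K _ δ c x h1 h2 ⟨A, rfl⟩ h4 h5 - h6 h7 h8
  exact h K δ c x 0 A h1 h2 False.elim h4 h5 ⟨h6, h7⟩ ((Rig.fl_eq K δ).symm.trans h8)

end Pool.Agent.Results.MP_5b78b3_gt.GenericRigid
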