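import Pool.Agent.Lib.MP_5b78b3_gt.Pl.E

/-!
In the plane, a convex body that is homothetic to one of its convex floating bodies with ratio
`c ≥ 1 / √2` is an ellipse.
-/

namespace Pool.Agent.Results.MP_5b78b3_gt.PlanarHalfArea

theorem result (K : Set (EuclideanSpace ℝ (Fin 2))) (δ c : ℝ) (x : EuclideanSpace ℝ (Fin 2))
    (hK : IsCompact K) (hc : Convex ℝ K) (hne : (interior K).Nonempty) (hδ : 0 < δ) (h0 : 0 < c)
    (h2 : 1 ≤ 2 * c ^ 2)
    (h : (⋂ (u : EuclideanSpace ℝ (Fin 2)) (t : ℝ) (_ : u ≠ 0)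
        (_ : MeasureTheory.volume (K \ {y | inner ℝ u y ≤ t}) ≤ ENNReal.ofReal δ),
        {y : EuclideanSpace ℝ (Fin 2) | inner ℝ u y ≤ t}) = (fun y => c • y + x) '' K) :
    ∃ A : EuclideanSpace ℝ (Fin 2) ≃ᵃ[ℝ] EuclideanSpace ℝ (Fin 2),
      K = A '' Metric.closedBall 0 1 := by
  refine Pool.Agent.Lib.MP_5b78b3_gt.Pl.planar K δ c x hK hc hne hδ h0 h2 fun y => ?_
  have := Set.ext_iff.1 h y
  simpa only [Set.mem_iInter, Set.mem_ofPred_eq, Set.mem_image] using this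

end Pool.Agent.Results.MP_5b78b3_gt.PlanarHalfArea
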