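import Pool.Agent.Lib.MP_5b78b3_gt.Rig.St
import Pool.Agent.Lib.MP_5b78b3_gt.Rig.Main

/-!
In every dimension `d ≥ 3`, a centrally symmetric convex body that is affinely close to the ball
and homothetic to one of its convex floating bodies is an ellipsoid.
-/

namespace Pool.Agent.Results.MP_5b78b3_gt.SymmetricRigid

open Pool.Agent.Lib.MP_5b78b3_gt

theorem result (d : ℕ) (hd : 3 ≤ d) (a b : ℝ) (ha : 0 < a) (hb : b < 1) :
    ∃ ε : ℝ, 0 < ε ∧ ∀ (K L : Set (EuclideanSpace ℝ (Fin d))) (δ c : ℝ)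
      (x z : EuclideanSpace ℝ (Fin d)),
      IsCompact K → Convex ℝ K → (∀ y ∈ K, z + z - y ∈ K) →
      Rig.AffImage K L → Metric.closedBall 0 (1 - ε) ⊆ L → L ⊆ Metric.closedBall 0 (1 + ε) →
      0 < δ → a ≤ c → c ≤ b → Rig.floating K δ = (fun y => c • y + x) '' K →
      Rig.AffImage (Metric.closedBall 0 1) K := by
  obtain ⟨n, rfl⟩ := Nat.exists_eq_add_of_le' hd
  obtain ⟨ε, hε, h⟩ := Rig.rigid (n + 1) True (a := a / 2) (b := (b + 1) / 2) (a' := a) (b' := b)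
    (by linarith) (by linarith) (by linarith) (by linarith) (fun l hl k hk ho => by
      obtain ⟨i, rfl⟩ := ho trivial
      obtain ⟨i, rfl⟩ : ∃ j, i = j + 1 := ⟨i - 1, by omega⟩
      exact (Rig.QQ_lt_odd n i (by linarith [hl.1]) (by linarith [hl.2])).ne)
  refine ⟨ε, hε, ?_⟩
  rintro K _ δ c x z h1 h2 h3 ⟨A, rfl⟩ h4 h5 - h6 h7 h8
  exact h K δ c x z A h1 h2 (fun _ => h3) h4 h5 ⟨h6, h7⟩ ((Rig.fl_eq K δ).symm.trans h8)

end Pool.Agent.Results.MP_5b78b3_gt.SymmetricRigid
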